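import Pool.Agent.H85.LK.Targets

/-!
# MP_8f7db2_an, module PI: positivity of the first eigenvalue
-/

set_option autoImplicit false

open MeasureTheory Metric Set ProbabilityTheory
open scoped ENNReal

namespace Pool.Agent.H59.LK

open Pool.Agent.H85.LK

lemma pi_hk_le (N : ℕ) {s : ℝ} (hs : 0 < s) (z : E N) :
    hk N s z ≤ (4 * Real.pi * s) ^ (-(N : ℝ) / 2) := by
  unfold hk
  have h1 : 0 ≤ (4 * Real.pi * s) ^ (-(N : ℝ) / 2) := by positivity
  have h2 : Real.exp (-‖z‖ ^ 2 / (4 * s)) ≤ 1 := by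
    rw [Real.exp_le_one_iff]
    exact div_nonpos_of_nonpos_of_nonneg (by nlinarith [sq_nonneg ‖z‖]) (by positivity)
  nlinarith

lemma pi_cs (N : ℕ) (v : E N → ℝ) (hv : Integrable v) (hv2 : Integrable fun x => v x ^ 2)
    (h0 : ∀ x, x ∉ ball (0 : E N) 1 → v x = 0) :
    (∫ x, |v x|) ^ 2 ≤ volume.real (ball (0 : E N) 1) * ∫ x, v x ^ 2 := by
  set V0 := volume.real (ball (0 : E N) 1) with hV0
  have hV : 0 < V0 := ENNReal.toReal_pos (measure_ball_pos _ _ one_pos).ne' measure_ball_lt_top.ne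
  have h1 : ∫ x, |v x| = ∫ x in ball (0 : E N) 1, |v x| := by
    refine (setIntegral_eq_integral_of_forall_compl_eq_zero fun x hx => ?_).symm
    rw [h0 x hx, abs_zero]
  have h2 : ∫ x, v x ^ 2 = ∫ x in ball (0 : E N) 1, v x ^ 2 := by
    refine (setIntegral_eq_integral_of_forall_compl_eq_zero fun x hx => ?_).symm
    rw [h0 x hx]
    norm_num
  rw [h1, h2]
  set a := ∫ x in ball (0 : E N) 1, |v x| with ha
  set m := a / V0 with hm
  have i1 : IntegrableOn (fun x => |v x|) (ball (0 : E N) 1) := hv.abs.integrableOn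
  have i2 : IntegrableOn (fun x => v x ^ 2) (ball (0 : E N) 1) := hv2.integrableOn
  have i3 : IntegrableOn (fun _ : E N => m ^ 2) (ball (0 : E N) 1) :=
    integrableOn_const measure_ball_lt_top.ne
  have h3 : 0 ≤ ∫ x in ball (0 : E N) 1, (|v x| - m) ^ 2 :=
    integral_nonneg fun x => sq_nonneg _
  have h4 : ∫ x in ball (0 : E N) 1, (|v x| - m) ^ 2 =
      (∫ x in ball (0 : E N) 1, v x ^ 2) - 2 * m * a + m ^ 2 * V0 := by
    have e : ∀ x, (|v x| - m) ^ 2 = v x ^ 2 - 2 * m * |v x| + m ^ 2 := by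
      intro x
      rw [sub_sq, sq_abs]
      ring
    simp only [e]
    have h5 := integral_add (i2.sub (i1.const_mul (2 * m))) i3
    have h6 := integral_sub i2 (i1.const_mul (2 * m))
    simp only [Pi.sub_apply] at h5
    rw [h5, h6, integral_const_mul, setIntegral_const, smul_eq_mul]
    ring
  rw [h4] at h3
  have h5 : m * V0 = a := by
    rw [hm]
    field_simp
  have h6 : a ^ 2 = V0 * (m * a) := by
    rw [← h5]
    ring
  rw [h6]
  refine mul_le_mul_of_nonneg_left ?_ hV.le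
  have h7 : m ^ 2 * V0 = m * a := by
    rw [← h5]
    ring
  linarith

theorem pf_PI (hHK : T_HK) (hINT : T_INT) (hENL : T_ENL) (hNE : T_NE) : T_PI := by
  intro N hN
  set V0 := volume.real (ball (0 : E N) 1) with hV0
  have hV : 0 < V0 := ENNReal.toReal_pos (measure_ball_pos _ _ one_pos).ne' measure_ball_lt_top.ne
  set A : ℝ := (2 * V0 + 1) ^ 2 with hA
  have hA1 : 1 ≤ A := by nlinarith
  set s : ℝ := A / (4 * Real.pi) with hs
  have hpi := Real.pi_pos
  have hs0 : 0 < s := by positivity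
  have h4 : 4 * Real.pi * s = A := by
    rw [hs]
    field_simp
  set κ : ℝ := (4 * Real.pi * s) ^ (-(N : ℝ) / 2) with hκ
  have hκ0 : 0 ≤ κ := by positivity
  have hκ1 : κ * V0 ≤ 1 / 2 := by
    have h5 : κ ≤ A ^ (-(1 / 2) : ℝ) := by
      rw [hκ, h4]
      refine Real.rpow_le_rpow_of_exponent_le hA1 ?_
      have : (1 : ℝ) ≤ N := by exact_mod_cast hN
      linarith
    have h6 : A ^ (-(1 / 2) : ℝ) = 1 / (2 * V0 + 1) := by
      rw [Real.rpow_neg (by positivity), ← Real.sqrt_eq_rpow, hA, Real.sqrt_sq (by positivity),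
        one_div]
    rw [h6] at h5
    calc κ * V0 ≤ 1 / (2 * V0 + 1) * V0 := mul_le_mul_of_nonneg_right h5 hV.le
      _ ≤ 1 / 2 := by
        rw [div_mul_eq_mul_div, one_mul, div_le_div_iff₀ (by positivity) (by norm_num)]
        linarith
  -- lower bound of the admissible constants
  have key : ∀ c ∈ adm N 1 (ball (0 : E N) 1), 1 / (2 * s) ≤ c := by
    rintro c ⟨V, hV1, hVp⟩
    have hne : ∃ v ∈ V, v ≠ 0 := by
      have : V ≠ ⊥ := by
        rintro rfl
        rw [finrank_bot] at hV1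
        omega
      exact V.exists_mem_ne_zero_of_ne_bot this
    obtain ⟨v, hvV, hv0⟩ := hne
    obtain ⟨hvc, hvs, hvt, hvi⟩ := hVp v hvV
    have hcont : Continuous v := hvc.continuous
    have hz : ∀ x, x ∉ ball (0 : E N) 1 → v x = 0 := fun x hx =>
      image_eq_zero_of_notMem_tsupport fun h => hx (hvt h)
    have hBd : Bd (ball (0 : E N) 1) v := by
      obtain ⟨C, hC⟩ := hvs.exists_bound_of_continuous hcont
      exact ⟨hcont.measurable, ⟨C, fun x => by simpa using hC x⟩, hz⟩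
    obtain ⟨-, -, -, iv, -, iv2, -, -, -, ivk, ivs⟩ :=
      hINT N s (ball (0 : E N) 1) v v hs0 measurableSet_ball isBounded_ball hBd hBd
    have hpos : 0 < ∫ x, v x ^ 2 := by
      obtain ⟨x0, hx0⟩ : ∃ x, v x ≠ 0 := by
        by_contra h
        push Not at h
        exact hv0 (funext h)
      refine (hcont.pow 2).integral_pos_of_hasCompactSupport_nonneg_nonzero ?_
        (fun x => sq_nonneg (v x)) (x := x0) (by
          show v x0 ^ 2 ≠ 0
          exact pow_ne_zero 2 hx0)
      exact hvs.comp_left (g := fun t : ℝ => t ^ 2) (by norm_num)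
    -- bound of the quadratic form
    have hsm : ∀ x, |sm N s v x| ≤ κ * ∫ y, |v y| := by
      intro x
      rw [← integral_const_mul, ← Real.norm_eq_abs]
      refine norm_integral_le_of_norm_le (iv.abs.const_mul κ) (Filter.Eventually.of_forall
        fun y => ?_)
      rw [norm_mul, Real.norm_eq_abs, Real.norm_eq_abs, abs_of_nonneg ((hHK N s hs0).1 _).le]
      exact mul_le_mul_of_nonneg_right (pi_hk_le N hs0 _) (abs_nonneg _)
    have hQ : Qf N s v ≤ 1 / 2 * ∫ x, v x ^ 2 := by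
      have h7 : Qf N s v ≤ ∫ x, |v x| * (κ * ∫ y, |v y|) := by
        unfold Qf
        refine integral_mono ivs (iv.abs.mul_const _) fun x => ?_
        calc v x * sm N s v x ≤ |v x * sm N s v x| := le_abs_self _
          _ = |v x| * |sm N s v x| := abs_mul _ _
          _ ≤ |v x| * (κ * ∫ y, |v y|) := mul_le_mul_of_nonneg_left (hsm x) (abs_nonneg _)
      rw [integral_mul_const] at h7
      have h8 := pi_cs N v iv iv2 hz
      have h9 : 0 ≤ ∫ x, v x ^ 2 := hpos.le
      calc Qf N s v ≤ (∫ x, |v x|) * (κ * ∫ y, |v y|) := h7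
        _ = κ * (∫ x, |v x|) ^ 2 := by ring
        _ ≤ κ * (V0 * ∫ x, v x ^ 2) := mul_le_mul_of_nonneg_left h8 hκ0
        _ = (κ * V0) * ∫ x, v x ^ 2 := by ring
        _ ≤ 1 / 2 * ∫ x, v x ^ 2 := mul_le_mul_of_nonneg_right hκ1 h9
    have hE := hENL N s v hs0 hvc hvs
    have h10 : 1 / 2 * ∫ x, v x ^ 2 ≤ s * (c * ∫ x, v x ^ 2) := by
      have := mul_le_mul_of_nonneg_left hvi hs0.le
      linarith
    have h11 : 1 / 2 ≤ s * c := by
      have : (1 / 2) * (∫ x, v x ^ 2) ≤ (s * c) * ∫ x, v x ^ 2 := by linarith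
      exact le_of_mul_le_mul_right this hpos
    rw [div_le_iff₀ (by positivity)]
    linarith
  have h12 : 1 / (2 * s) ≤ lam N 1 (ball (0 : E N) 1) :=
    le_csInf (hNE N 1 _ hN isOpen_ball ⟨0, mem_ball_self one_pos⟩) key
  exact lt_of_lt_of_le (by positivity) h12

end Pool.Agent.H59.LK
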