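import Pool.Agent.H85.LK.Targets

/-!
# MP_8f7db2_an, module RPA: Bessel inequality for the heat operator
-/

set_option autoImplicit false

open MeasureTheory Metric Set ProbabilityTheory
open scoped ENNReal

namespace Pool.Agent.H59.LK

open Pool.Agent.H85.LK

/-- the pointwise inequality -/
lemma rpa_point (hHK : T_HK) (hINT : T_INT) (hRPS : T_RPS) (N : ℕ) (s : ℝ) (f : E N → ℝ)
    (hs : 0 < s) (hf : Bd (ball (0 : E N) 1) f) (x : E N) :
    sm N s f x ^ 2 + 2 * s * ‖fderiv ℝ (sm N s f) x‖ ^ 2 ≤ sm N s (fun y => f y ^ 2) x := by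
  obtain ⟨hpos, hkc, hki, hk1, hk2i, hk2, hk3, -⟩ := hHK N s hs
  obtain ⟨hfm, ⟨M, hM⟩, hf0⟩ := id hf
  have hf2 : Bd (ball (0 : E N) 1) (fun y => f y ^ 2) := by
    refine ⟨hfm.pow_const 2, ⟨M ^ 2, fun y => ?_⟩, fun y hy => ?_⟩
    · show |f y ^ 2| ≤ M ^ 2
      rw [abs_pow]
      exact pow_le_pow_left₀ (abs_nonneg _) (hM y) 2
    · show f y ^ 2 = 0
      rw [hf0 y hy]
      norm_num
  obtain ⟨-, -, -, -, -, -, -, -, -, if1, -⟩ :=
    hINT N s (ball (0 : E N) 1) f f hs measurableSet_ball isBounded_ball hf hf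
  obtain ⟨-, -, -, -, -, -, -, -, -, if2, -⟩ :=
    hINT N s (ball (0 : E N) 1) _ _ hs measurableSet_ball isBounded_ball hf2 hf2
  set F : ℝ := sm N s f x with hF
  set L := fderiv ℝ (sm N s f) x with hL
  set β : E N := (InnerProductSpace.toDual ℝ (E N)).symm L with hβ
  have hβ1 : ∀ a : E N, inner ℝ β a = L a := fun a => InnerProductSpace.toDual_symm_apply
  have hβ2 : ‖β‖ = ‖L‖ := LinearIsometryEquiv.norm_map _ _
  have hLβ : L β = ‖β‖ ^ 2 := by rw [← hβ1, real_inner_self_eq_norm_sq]
  -- the pure kernel terms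
  have j0 : Integrable (fun y => hk N s (x - y)) := hki.comp_sub_left x
  have i2z : Integrable (fun z : E N => hk N s z * inner ℝ z β ^ 2) := by
    refine (hk2i.mul_const (‖β‖ ^ 2)).mono'
      ((hkc.mul ((continuous_id.inner continuous_const).pow 2)).aestronglyMeasurable)
      (Filter.Eventually.of_forall fun z => ?_)
    rw [Real.norm_eq_abs, abs_of_nonneg (mul_nonneg (hpos z).le (sq_nonneg _)), mul_assoc]
    refine mul_le_mul_of_nonneg_left ?_ (hpos z).le
    rw [← mul_pow, ← sq_abs]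
    exact pow_le_pow_left₀ (abs_nonneg _) (abs_real_inner_le_norm z β) 2
  have i1z : Integrable (fun z : E N => hk N s z * inner ℝ z β) := by
    refine ((hki.add i2z)).mono'
      ((hkc.mul (continuous_id.inner continuous_const)).aestronglyMeasurable)
      (Filter.Eventually.of_forall fun z => ?_)
    rw [Real.norm_eq_abs, abs_mul, abs_of_nonneg (hpos z).le]
    show _ ≤ hk N s z + hk N s z * inner ℝ z β ^ 2
    have h1 : |inner ℝ z β| ≤ 1 + inner ℝ z β ^ 2 := by
      have := sq_nonneg (|inner ℝ z β| - 1)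
      have h2 : |inner ℝ z β| ^ 2 = inner ℝ z β ^ 2 := sq_abs _
      nlinarith [abs_nonneg (inner ℝ z β : ℝ)]
    have h3 := mul_le_mul_of_nonneg_left h1 (hpos z).le
    linarith
  have e2 : ∀ y : E N, hk N s (x - y) * inner ℝ (y - x) β ^ 2 =
      (fun z => hk N s z * inner ℝ z β ^ 2) (x - y) := by
    intro y
    simp only
    rw [← neg_sub x y, inner_neg_left, neg_sq]
  have e1 : ∀ y : E N, hk N s (x - y) * inner ℝ (y - x) β =
      -(fun z => hk N s z * inner ℝ z β) (x - y) := by
    intro y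
    simp only
    rw [← neg_sub x y, inner_neg_left]
    ring
  have j2 : Integrable (fun y : E N => hk N s (x - y) * inner ℝ (y - x) β ^ 2) := by
    simp only [e2]
    exact i2z.comp_sub_left x
  have j1 : Integrable (fun y : E N => hk N s (x - y) * inner ℝ (y - x) β) := by
    simp only [e1]
    exact (i1z.comp_sub_left x).neg
  have k0 : ∫ y, hk N s (x - y) = 1 := by
    rw [integral_sub_left_eq_self (hk N s) volume x]
    exact hk1
  have k2 : ∫ y : E N, hk N s (x - y) * inner ℝ (y - x) β ^ 2 = 2 * s * ‖β‖ ^ 2 := by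
    simp only [e2]
    rw [integral_sub_left_eq_self (fun z : E N => hk N s z * inner ℝ z β ^ 2) volume x]
    exact hk2 β
  have k1 : ∫ y : E N, hk N s (x - y) * inner ℝ (y - x) β = 0 := by
    simp only [e1]
    rw [integral_neg, integral_sub_left_eq_self (fun z : E N => hk N s z * inner ℝ z β) volume x,
      hk3 β, neg_zero]
  -- the mixed term
  have j3 : Integrable (fun y : E N => hk N s (x - y) * (inner ℝ (y - x) β * f y)) := by
    have h1 : ∀ y : E N, hk N s (x - y) * (inner ℝ (y - x) β * f y) =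
        (hk N s (x - y) * inner ℝ (y - x) β) * f y := fun y => by ring
    simp only [h1]
    refine j1.mul_bdd (c := M) hfm.aestronglyMeasurable (Filter.Eventually.of_forall fun y => ?_)
    rw [Real.norm_eq_abs]
    exact hM y
  have k3 : ∫ y : E N, hk N s (x - y) * (inner ℝ (y - x) β * f y) = 2 * s * ‖β‖ ^ 2 := by
    have h1 := (hRPS N s f hs hf).2 x β
    rw [← hL, hLβ] at h1
    rw [h1]
    field_simp
  have kF : ∫ y, hk N s (x - y) * f y = F := rfl
  have kG : ∫ y, hk N s (x - y) * f y ^ 2 = sm N s (fun y => f y ^ 2) x := rfl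
  have h0 : 0 ≤ ∫ y, hk N s (x - y) * (f y - F - inner ℝ (y - x) β) ^ 2 :=
    integral_nonneg fun y => mul_nonneg (hpos _).le (sq_nonneg _)
  have hexp : ∀ y, hk N s (x - y) * (f y - F - inner ℝ (y - x) β) ^ 2 =
      ((((hk N s (x - y) * f y ^ 2 + F ^ 2 * hk N s (x - y)) +
        hk N s (x - y) * inner ℝ (y - x) β ^ 2) - 2 * F * (hk N s (x - y) * f y)) -
        2 * (hk N s (x - y) * (inner ℝ (y - x) β * f y))) +
        2 * F * (hk N s (x - y) * inner ℝ (y - x) β) := fun y => by ring
  simp only [hexp] at h0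
  have a1 := if2 x
  have a2 := j0.const_mul (F ^ 2)
  have a4 := (if1 x).const_mul (2 * F)
  have a5 := j3.const_mul 2
  have a6 := j1.const_mul (2 * F)
  have b1 : Integrable (fun y => hk N s (x - y) * f y ^ 2 + F ^ 2 * hk N s (x - y)) := a1.add a2
  have b2 : Integrable (fun y => hk N s (x - y) * f y ^ 2 + F ^ 2 * hk N s (x - y) +
      hk N s (x - y) * inner ℝ (y - x) β ^ 2) := b1.add j2
  have b3 : Integrable (fun y => hk N s (x - y) * f y ^ 2 + F ^ 2 * hk N s (x - y) +
      hk N s (x - y) * inner ℝ (y - x) β ^ 2 - 2 * F * (hk N s (x - y) * f y)) := b2.sub a4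
  have b4 : Integrable (fun y => hk N s (x - y) * f y ^ 2 + F ^ 2 * hk N s (x - y) +
      hk N s (x - y) * inner ℝ (y - x) β ^ 2 - 2 * F * (hk N s (x - y) * f y) -
      2 * (hk N s (x - y) * (inner ℝ (y - x) β * f y))) := b3.sub a5
  rw [integral_add b4 a6, integral_sub b3 a5, integral_sub b2 a4, integral_add b1 j2,
    integral_add a1 a2, integral_const_mul, integral_const_mul, integral_const_mul,
    integral_const_mul, k0, k1, k2, k3, kF, kG] at h0
  rw [← hβ2]
  nlinarith

theorem pf_RPA (hHK : T_HK) (hINT : T_INT) (hRPS : T_RPS) : T_RPA := by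
  intro N s f hs hf
  obtain ⟨hpos, hkc, hki, hk1, -⟩ := hHK N s hs
  obtain ⟨hfm, ⟨M, hM⟩, hf0⟩ := id hf
  have hf2 : Bd (ball (0 : E N) 1) (fun y => f y ^ 2) := by
    refine ⟨hfm.pow_const 2, ⟨M ^ 2, fun y => ?_⟩, fun y hy => ?_⟩
    · show |f y ^ 2| ≤ M ^ 2
      rw [abs_pow]
      exact pow_le_pow_left₀ (abs_nonneg _) (hM y) 2
    · show f y ^ 2 = 0
      rw [hf0 y hy]
      norm_num
  obtain ⟨-, -, ip, -, -, -, -, -, -, -, -⟩ :=
    hINT N s (ball (0 : E N) 1) f f hs measurableSet_ball isBounded_ball hf hf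
  obtain ⟨-, -, -, -, -, -, -, iG, -, -, -⟩ :=
    hINT N s (ball (0 : E N) 1) _ _ hs measurableSet_ball isBounded_ball hf2 hf2
  have hpt := rpa_point hHK hINT hRPS N s f hs hf
  have hC := (hRPS N s f hs hf).1
  have hFc : Continuous (sm N s f) := hC.continuous
  have hDc : Continuous (fderiv ℝ (sm N s f)) := hC.continuous_fderiv (by simp)
  have i1 : Integrable fun x => sm N s f x ^ 2 := by
    refine iG.mono' (hFc.pow 2).aestronglyMeasurable (Filter.Eventually.of_forall fun x => ?_)
    rw [Real.norm_eq_abs, abs_of_nonneg (sq_nonneg _)]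
    have := hpt x
    have h2 : 0 ≤ 2 * s * ‖fderiv ℝ (sm N s f) x‖ ^ 2 := by positivity
    linarith
  have i2 : Integrable fun x => 2 * s * ‖fderiv ℝ (sm N s f) x‖ ^ 2 := by
    refine iG.mono' (continuous_const.mul (hDc.norm.pow 2)).aestronglyMeasurable
      (Filter.Eventually.of_forall fun x => ?_)
    have h2 : 0 ≤ 2 * s * ‖fderiv ℝ (sm N s f) x‖ ^ 2 := by positivity
    rw [Real.norm_eq_abs, abs_of_nonneg h2]
    have := hpt x
    have h3 := sq_nonneg (sm N s f x)
    linarith
  have i3 : Integrable fun x => ‖fderiv ℝ (sm N s f) x‖ ^ 2 := by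
    have h1 := i2.const_mul (1 / (2 * s))
    refine h1.congr (Filter.Eventually.of_forall fun x => ?_)
    simp only
    field_simp
  refine ⟨i1, i3, ?_⟩
  have hG : ∫ x, sm N s (fun y => f y ^ 2) x = ∫ y, f y ^ 2 := by
    unfold sm
    have h1 := integral_integral_swap (μ := (volume : Measure (E N)))
      (ν := (volume : Measure (E N))) (f := fun x y => hk N s (x - y) * f y ^ 2) ip
    rw [h1]
    refine integral_congr_ae (Filter.Eventually.of_forall fun y => ?_)
    simp only
    rw [integral_mul_const, integral_sub_right_eq_self (hk N s) y, hk1, one_mul]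
  rw [← hG, ← integral_const_mul, ← integral_add i1 i2]
  exact integral_mono (i1.add i2) iG fun x => hpt x

end Pool.Agent.H59.LK
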